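import Pool.Agent.H72.UV.Basic
import Pool.Agent.H72.UV.Targets

/-!
UV module LOCF: local finiteness of the hypergraph of indecomposable sets.
-/

set_option autoImplicit false

open Set Filter Topology

namespace Pool.Agent.H83.UV

open Pool.Agent.H71 (Fx orb acl)
open Pool.Agent.H72.UV

theorem LOCF (hTT : T_TT) (hCST : T_CST) (hRI : T_RI) : T_LOCF := by
  classical
  intro M C c m K hG x
  by_contra hinf
  have hinf : {W | W ∈ Edges m c K ∧ x ∈ W}.Infinite := hinf
  -- infinitely many edges of the same size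
  obtain ⟨w, hw⟩ : ∃ w : ℕ, {W | (W ∈ Edges m c K ∧ x ∈ W) ∧ W.card = w}.Infinite := by
    by_contra h
    push Not at h
    apply hinf
    have : {W | W ∈ Edges m c K ∧ x ∈ W} ⊆
        ⋃ w ∈ Finset.range (m + 1), {W | (W ∈ Edges m c K ∧ x ∈ W) ∧ W.card = w} := by
      intro W hW
      exact mem_biUnion (Finset.mem_range.2 (Nat.lt_succ_of_le hW.1.1)) ⟨hW, rfl⟩
    refine Set.Finite.subset ?_ this
    exact (Finset.finite_toSet _).biUnion fun w _ => Set.not_infinite.1 (by
      have := h w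
      exact fun h' => h' this)
  let Wj := hw.natEmbedding
  have hWj : ∀ j, ((Wj j : Finset M) ∈ Edges m c K ∧ x ∈ (Wj j : Finset M)) ∧
      (Wj j : Finset M).card = w := fun j => (Wj j).2
  have hex : ∀ j, ∃ e : Fin w → M, Function.Injective e ∧
      range e = ((Wj j : Finset M) : Set M) := by
    intro j
    let f := (Finset.equivFinOfCardEq (hWj j).2).symm
    refine ⟨fun i => (f i : M), fun a b h => f.injective (Subtype.ext h), ?_⟩
    ext y
    constructor
    · rintro ⟨i, rfl⟩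
      exact (f i).2
    · intro hy
      exact ⟨f.symm ⟨y, hy⟩, by simp⟩
  choose e he he2 using hex
  -- the index of `x`
  have hidx : ∀ j, ∃ i : Fin w, e j i = x := by
    intro j
    have : x ∈ range (e j) := by
      rw [he2]
      exact (hWj j).1.2
    exact this
  choose ix hix using hidx
  let V : Ultrafilter ℕ := hyperfilter ℕ
  obtain ⟨i0, -, hi0⟩ := exists_ae V ix (Set.toFinite _)
  let I0 : Set (Fin w) := {i | ∃ y, ∀ᶠ j in (V : Filter ℕ), e j i = y}
  have hz : ∀ i, ∃ y, i ∈ I0 → ∀ᶠ j in (V : Filter ℕ), e j i = y := by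
    intro i
    by_cases hi : i ∈ I0
    · obtain ⟨y, hy⟩ := hi
      exact ⟨y, fun _ => hy⟩
    · exact ⟨x, fun h => absurd h hi⟩
  choose z hz using hz
  have hi0I : i0 ∈ I0 := ⟨x, by
    filter_upwards [hi0] with j hj
    rw [← hj]
    exact hix j⟩
  have hall0 : ∀ᶠ j in (V : Filter ℕ), ∀ i ∈ I0, e j i = z i := by
    rw [Filter.eventually_all_finite (Set.toFinite I0)]
    exact fun i hi => hz i hi
  have hne1 : (I0ᶜ : Set (Fin w)).Nonempty := by
    by_contra h
    rw [Set.not_nonempty_iff_eq_empty, Set.compl_empty_iff] at h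
    have h1 : ∀ᶠ j in (V : Filter ℕ), e j = z := by
      filter_upwards [hall0] with j hj
      funext i
      exact hj i (h ▸ mem_univ i)
    obtain ⟨j1, hj1⟩ := h1.exists
    have h2 : ∀ᶠ j in (V : Filter ℕ), j ≠ j1 := by
      have : ({j1} : Set ℕ)ᶜ ∈ (V : Filter ℕ) :=
        Filter.compl_mem_hyperfilter_of_finite (Set.finite_singleton j1)
      exact this
    obtain ⟨j2, hj2, hj2'⟩ := (h1.and h2).exists
    apply hj2'
    apply Wj.injective
    apply Subtype.ext
    have h3 : ((Wj j2 : Finset M) : Set M) = ((Wj j1 : Finset M) : Set M) := by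
      rw [← he2 j2, ← he2 j1, hj2, hj1]
    exact Finset.coe_injective h3
  let U : Ultrafilter (Fin w → M) := V.map e
  have hU : FreeOn (I0ᶜ) U := by
    refine ⟨fun i _ j _ hij => ?_, fun i hi y => ?_⟩
    · change ∀ᶠ k in (V : Filter ℕ), e k i ≠ e k j
      exact Eventually.of_forall fun k h => hij (he k h)
    · have h1 : ¬ ∀ᶠ j in (V : Filter ℕ), e j i = y := fun h => hi ⟨y, h⟩
      exact Ultrafilter.eventually_not.2 h1
  have hcst := hCST M C c m K hG (Fin w) univ (Set.toFinite _) U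
  have hcst' : ∀ᶠ j in (V : Filter ℕ), ∀ᶠ j' in (V : Filter ℕ), TT c K univ (e j) (e j') := hcst
  have hix0 : ∀ᶠ j in (V : Filter ℕ), e j i0 = x := by
    filter_upwards [hi0] with j hj
    rw [← hj]
    exact hix j
  obtain ⟨j0, ⟨hj0, hj0x⟩, hj0T⟩ := ((hall0.and hix0).and hcst').exists
  have hInd : Ind c K (e j0) (I0ᶜ) I0 := by
    refine ⟨U, hU, ?_⟩
    have ha : ∀ᶠ u in (U : Filter (Fin w → M)), ∀ i ∈ I0, u i = z i := hall0
    have hb : ∀ᶠ u in (U : Filter (Fin w → M)), TT c K univ (e j0) u := hj0T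
    filter_upwards [ha, hb] with u hu huT
    refine (hTT M C c K (Fin w) _).2.2.2.2.1 (e j0) u _ _ (fun i _ => rfl) (fun i _ => ?_)
      ((hTT M C c K (Fin w) univ).2.2.2.2.2 _ _ _ (subset_univ _) huT)
    by_cases hi : i ∈ I0ᶜ
    · simp only [Set.piecewise, if_pos hi]
    · simp only [Set.piecewise, if_neg hi]
      have hi : i ∈ I0 := by simpa using hi
      rw [hu i hi, hj0 i hi]
  have hdis : Disjoint (I0ᶜ : Set (Fin w)) I0 := disjoint_compl_left
  have h1 := (hRI M C c K (Fin w) M (e j0) (I0ᶜ) I0 (he j0).injOn hdis id id).2.2 hInd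
  refine (hWj j0).1.1.2.2.2 (e j0 '' I0ᶜ) (e j0 '' I0) ?_ ?_ (hne1.image _)
    ⟨x, i0, hi0I, hj0x⟩ h1
  · rw [← image_union, compl_union_self, image_univ, he2]
  · exact (disjoint_image_iff (he j0)).2 hdis

end Pool.Agent.H83.UV
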