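import Pool.Agent.H72.UV.Basic
import Pool.Agent.H72.UV.Targets

/-!
UV module OUT: all tuples outside a finite set are generic.
-/

set_option autoImplicit false

open Set Filter Topology

namespace Pool.Agent.H83.UV

open Pool.Agent.H71 (Fx orb acl)
open Pool.Agent.H72.UV

variable {M C : Type}

lemma KT.symm' {ν : Type} {c : Str M C} {K : Set M} {W : Set ν} {x y : ν → M}
    (h : KT c K W x y) : KT c K W y x := fun l h1 h2 => (h l h1 h2).symm

lemma KT.trans' {ν : Type} {c : Str M C} {K : Set M} {W : Set ν} {x y z : ν → M}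
    (h : KT c K W x y) (h' : KT c K W y z) : KT c K W x z :=
  fun l h1 h2 => (h l h1 h2).trans (h' l h1 h2)

/-- the first clause, for a fixed length -/
lemma out1 (hTT : T_TT) (hCST : T_CST) (hL1 : T_L1) (c : Str M C) (m : ℕ) (K : Set M)
    (hG : Good m c K) (n : ℕ) : ∃ F : Finset M, ∀ x x' : Fin n → M, Function.Injective x →
      Function.Injective x' → (∀ i, x i ∉ F) → (∀ i, x' i ∉ F) → KT c K univ x x' →
      TT c K univ x x' := by
  classical
  by_contra hcon
  push Not at hcon
  choose b b' hb hb' hbF hbF' hKT hnTT using hcon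
  let Q : Ultrafilter (Finset M) := Ultrafilter.of atTop
  have hQ : ∀ y, ∀ᶠ F in (Q : Filter (Finset M)), y ∈ F := by
    intro y
    have : ∀ᶠ F in (atTop : Filter (Finset M)), y ∈ F := by
      filter_upwards [eventually_ge_atTop ({y} : Finset M)] with F hF
      exact hF (Finset.mem_singleton_self y)
    exact Ultrafilter.of_le atTop this
  let U1 : Ultrafilter (Fin n → M) := Q.map b
  let U2 : Ultrafilter (Fin n → M) := Q.map b'
  have hU1 : FreeOn univ U1 := by
    refine ⟨fun i _ j _ hij => ?_, fun i _ y => ?_⟩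
    · change ∀ᶠ F in (Q : Filter (Finset M)), b F i ≠ b F j
      exact Eventually.of_forall fun F h => hij (hb F h)
    · change ∀ᶠ F in (Q : Filter (Finset M)), b F i ≠ y
      filter_upwards [hQ y] with F hF
      intro h
      exact hbF F i (h ▸ hF)
  have hU2 : FreeOn univ U2 := by
    refine ⟨fun i _ j _ hij => ?_, fun i _ y => ?_⟩
    · change ∀ᶠ F in (Q : Filter (Finset M)), b' F i ≠ b' F j
      exact Eventually.of_forall fun F h => hij (hb' F h)
    · change ∀ᶠ F in (Q : Filter (Finset M)), b' F i ≠ y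
      filter_upwards [hQ y] with F hF
      intro h
      exact hbF' F i (h ▸ hF)
  obtain ⟨hTK, hTrefl, hTsymm, hTtrans, hTcong, hTmono⟩ := hTT M C c K (Fin n) univ
  obtain ⟨u, hu⟩ := (hCST M C c m K hG (Fin n) univ (Set.toFinite _) U1).exists
  obtain ⟨v, hv⟩ := (hCST M C c m K hG (Fin n) univ (Set.toFinite _) U2).exists
  have hu' : ∀ᶠ F in (Q : Filter (Finset M)), TT c K univ u (b F) := hu
  have hv' : ∀ᶠ F in (Q : Filter (Finset M)), TT c K univ v (b' F) := hv
  obtain ⟨F, hF1, hF2⟩ := (hu'.and hv').exists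
  have hKuv : KT c K univ u v :=
    KT.trans' (KT.trans' (hTK _ _ hF1) (hKT F)) (KT.symm' (hTK _ _ hF2))
  have hae : ∀ᶠ x in (U1 : Filter (Fin n → M)), ∀ᶠ x' in (U2 : Filter (Fin n → M)),
      KT c K univ x x' := by
    filter_upwards [hu] with x hx
    filter_upwards [hv] with x' hx'
    exact KT.trans' (KT.trans' (KT.symm' (hTK _ _ hx)) hKuv) (hTK _ _ hx')
  have h1 := hL1 M C c m K hG (Fin n) univ ∅ (Set.toFinite _) (Set.toFinite _)
    (disjoint_empty _) U1 U2 hU1 hU2 hae u
  obtain ⟨x, hx, hx2⟩ := (hu.and h1).exists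
  obtain ⟨x', hx', hx3⟩ := (hv.and hx2).exists
  rw [union_empty, piecewise_univ, piecewise_univ] at hx3
  exact hnTT F (hTtrans _ _ _ (hTtrans _ _ _ (hTsymm _ _ hF1)
    (hTtrans _ _ _ hx (hTtrans _ _ _ hx3 (hTsymm _ _ hx')))) hF2)

/-- the second clause, for a fixed size -/
lemma out2 (hCST : T_CST) (hRI : T_RI) (c : Str M C) (m : ℕ) (K : Set M)
    (hG : Good m c K) (n : ℕ) : ∃ F : Finset M, ∀ S : Set M, S.Finite → S.ncard = n →
      (∀ y ∈ S, y ∉ F) → Ind c K (id : M → M) S ∅ := by
  classical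
  by_contra hcon
  push Not at hcon
  choose S hS hSn hSF hnI using hcon
  have hex : ∀ F, ∃ e : Fin n → M, Function.Injective e ∧ range e = S F := by
    intro F
    have hc : (hS F).toFinset.card = n := by
      rw [← Set.ncard_eq_toFinset_card _ (hS F)]
      exact hSn F
    let f := (Finset.equivFinOfCardEq hc).symm
    refine ⟨fun i => (f i : M), fun a b h => f.injective (Subtype.ext h), ?_⟩
    ext y
    constructor
    · rintro ⟨i, rfl⟩
      exact (hS F).mem_toFinset.1 (f i).2
    · intro hy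
      exact ⟨f.symm ⟨y, (hS F).mem_toFinset.2 hy⟩, by simp⟩
  choose b hb hb2 using hex
  let Q : Ultrafilter (Finset M) := Ultrafilter.of atTop
  have hQ : ∀ y, ∀ᶠ F in (Q : Filter (Finset M)), y ∈ F := by
    intro y
    have : ∀ᶠ F in (atTop : Filter (Finset M)), y ∈ F := by
      filter_upwards [eventually_ge_atTop ({y} : Finset M)] with F hF
      exact hF (Finset.mem_singleton_self y)
    exact Ultrafilter.of_le atTop this
  let U : Ultrafilter (Fin n → M) := Q.map b
  have hU : FreeOn univ U := by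
    refine ⟨fun i _ j _ hij => ?_, fun i _ y => ?_⟩
    · change ∀ᶠ F in (Q : Filter (Finset M)), b F i ≠ b F j
      exact Eventually.of_forall fun F h => hij (hb F h)
    · change ∀ᶠ F in (Q : Filter (Finset M)), b F i ≠ y
      filter_upwards [hQ y] with F hF
      intro h
      have : b F i ∈ S F := by
        rw [← hb2 F]
        exact mem_range_self i
      exact hSF F _ this (h ▸ hF)
  obtain ⟨F, hF⟩ := (show ∀ᶠ F in (Q : Filter (Finset M)), ∀ᶠ u in (U : Filter (Fin n → M)),
    TT c K univ (b F) u from hCST M C c m K hG (Fin n) univ (Set.toFinite _) U).exists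
  have hI : Ind c K (b F) univ ∅ := by
    refine ⟨U, hU, ?_⟩
    filter_upwards [hF] with u hu
    rw [union_empty, piecewise_univ]
    exact hu
  have h1 := (hRI M C c K (Fin n) M (b F) univ ∅ (hb F).injOn (disjoint_empty _) id id).2.2 hI
  rw [image_univ, image_empty, hb2] at h1
  exact hnI F h1

theorem OUT (hTT : T_TT) (hCST : T_CST) (hL1 : T_L1) (hRI : T_RI) : T_OUT := by
  classical
  intro M C c m K hG
  choose F1 hF1 using out1 hTT hCST hL1 c m K hG
  choose F2 hF2 using out2 hCST hRI c m K hG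
  let F : Finset M := (Finset.range (m + 1)).biUnion fun n => F1 n ∪ F2 n
  have hsub1 : ∀ n ≤ m, F1 n ⊆ F := fun n hn y hy =>
    Finset.mem_biUnion.2 ⟨n, Finset.mem_range.2 (Nat.lt_succ_of_le hn),
      Finset.mem_union_left _ hy⟩
  have hsub2 : ∀ n ≤ m, F2 n ⊆ F := fun n hn y hy =>
    Finset.mem_biUnion.2 ⟨n, Finset.mem_range.2 (Nat.lt_succ_of_le hn),
      Finset.mem_union_right _ hy⟩
  refine ⟨F, F.finite_toSet, ?_, ?_⟩
  · intro n x x' hn hx hx' hxF hxF' hKT
    exact hF1 n x x' hx hx' (fun i hi => hxF i (Or.inr (hsub1 n hn hi)))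
      (fun i hi => hxF' i (Or.inr (hsub1 n hn hi))) hKT
  · intro S hS hSm hdis
    refine hF2 S.ncard S hS rfl fun y hy hyF => ?_
    exact Set.disjoint_left.1 hdis hy (Or.inr (hsub2 _ hSm hyF))

end Pool.Agent.H83.UV
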