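import Pool.Agent.H72.UV.Basic
import Pool.Agent.H72.UV.Targets

/-!
UV modules TOW and TOWN: elementary facts on towers, the tower of a structure.
-/

set_option autoImplicit false

open Set Filter Topology

namespace Pool.Agent.H83.UV

open Pool.Agent.H71 (Fx orb acl)
open Pool.Agent.H72.UV

lemma orb_mono_group {G H : Subgroup (Equiv.Perm ℕ)} (h : G ≤ H) (F : Finset ℕ) (x : ℕ) :
    orb G F x ⊆ orb H F x := by
  rintro b ⟨g, hg, rfl⟩
  exact ⟨g, ⟨h hg.1, hg.2⟩, rfl⟩

lemma acl_anti_group {G H : Subgroup (Equiv.Perm ℕ)} (h : G ≤ H) (F : Finset ℕ) :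
    acl H F ⊆ acl G F := fun x hx => Set.Finite.subset hx (orb_mono_group h F x)

lemma self_mem_cell {G : Subgroup (Equiv.Perm ℕ)} {x : ℕ} (hx : x ∉ acl G ∅) : x ∈ cell G x :=
  ⟨Pool.Agent.H71.subset_acl G {x} (by simp), hx⟩

theorem TOW (hGRP : T_GRP) : T_TOW := by
  intro G hG
  have hc : ∀ m, Cell (G m) := fun m => hGRP (G m) (hG.fin m) (hG.olig m)
  have hanti : ∀ m n, m ≤ n → G n ≤ G m := fun m n h => antitone_nat_of_succ_le hG.anti h
  have hacl : ∀ m n F, m ≤ n → acl (G m) F ⊆ acl (G n) F := fun m n F h =>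
    acl_anti_group (hanti m n h) F
  have h3 : ∀ m n x, m ≤ n → x ∉ acl (G n) ∅ → cell (G m) x ⊆ cell (G n) x := by
    intro m n x hmn hx y hy
    refine ⟨hacl m n _ hmn hy.1, fun hyn => hx ?_⟩
    have hx' : x ∉ acl (G m) ∅ := fun h => hx (hacl m n _ hmn h)
    have h1 := (hc m).exch x y hx' hy
    have h2 : x ∈ cell (G m) y := by
      rw [h1]
      exact self_mem_cell hx'
    have h4 : acl (G n) ({y} : Finset ℕ) ⊆ acl (G n) ∅ :=
      Pool.Agent.H71.acl_subset_acl (by
        intro z hz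
        simp only [Finset.coe_singleton, mem_singleton_iff] at hz
        rw [hz]
        exact hyn)
    exact h4 (hacl m n _ hmn h2.1)
  have h5 : ∀ x, x ∉ Kinf G → ∀ m, x ∉ acl (G m) ∅ := fun x hx m h =>
    hx (mem_iUnion.2 ⟨m, h⟩)
  have hdisj : ∀ x, x ∉ Kinf G → ∀ y ∈ comp G x, y ∉ Kinf G := by
    intro x hx y hy hy'
    obtain ⟨m, hm⟩ := mem_iUnion.1 hy
    obtain ⟨n, hn⟩ := mem_iUnion.1 hy'
    have := h3 m (max m n) x (le_max_left _ _) (h5 x hx _) hm
    exact this.2 (hacl n (max m n) _ (le_max_right _ _) hn)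
  refine ⟨hanti, fun m n h => hacl m n ∅ h, h3, ?_, ?_, fun m n x h =>
    orb_mono_group (hanti m n h) ∅ x, fun m x hx => hx⟩
  · intro m x hx hxm y hy
    obtain ⟨n, hn⟩ := mem_iUnion.1 hx
    have hmn : m ≤ n := by
      by_contra h
      exact hxm (hacl n m _ (by omega) hn)
    have h4 : acl (G n) ({x} : Finset ℕ) ⊆ acl (G n) ∅ :=
      Pool.Agent.H71.acl_subset_acl (by
        intro z hz
        simp only [Finset.coe_singleton, mem_singleton_iff] at hz
        rw [hz]
        exact hn)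
    exact mem_iUnion.2 ⟨n, h4 (hacl m n _ hmn hy.1)⟩
  · intro x hx
    refine ⟨mem_iUnion.2 ⟨0, self_mem_cell (h5 x hx 0)⟩, ?_, ?_⟩
    · rw [Set.disjoint_left]
      exact hdisj x hx
    · intro y hy
      have hyK := hdisj x hx y hy
      obtain ⟨m, hm⟩ := mem_iUnion.1 hy
      have hcell : ∀ n, m ≤ n → cell (G n) y = cell (G n) x := fun n hn =>
        (hc n).exch x y (h5 x hx n) (h3 m n x hn (h5 x hx n) hm)
      apply Set.Subset.antisymm
      · intro z hz
        obtain ⟨k, hk⟩ := mem_iUnion.1 hz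
        have := h3 k (max m k) y (le_max_right _ _) (h5 y hyK _) hk
        rw [hcell _ (le_max_left _ _)] at this
        exact mem_iUnion.2 ⟨_, this⟩
      · intro z hz
        obtain ⟨k, hk⟩ := mem_iUnion.1 hz
        have := h3 k (max m k) x (le_max_right _ _) (h5 x hx _) hk
        rw [← hcell _ (le_max_left _ _)] at this
        exact mem_iUnion.2 ⟨_, this⟩

theorem TOWN (_hGRP : T_GRP) (hCORE : T_CORE) : T_TOWN := by
  intro C c hol
  have hfin : ∀ m, Finry (FinAut (tr m c)) := fun m => finry_finAut _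
  refine ⟨?_, ?_, ?_, ?_⟩
  · rintro m g ⟨hg, hg'⟩
    have hle : FinAut (tr (m + 1) c) ≤ FinAut (tr m c) := finAut_tr_anti (Nat.le_succ m) c
    exact ⟨hle hg, fun a ha => hg' a (acl_anti_group hle ∅ ha)⟩
  · rintro m g ⟨hg, -⟩
    exact hfin m g hg
  · exact fun m => (hCORE _ (hfin m) (hol m)).1
  · exact fun m => (hCORE _ (hfin m) (hol m)).2.1

end Pool.Agent.H83.UV
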