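import Pool.Agent.H72.UV.Basic
import Pool.Agent.H72.UV.Targets

/-!
UV module TOWC: conjugated towers.
-/

set_option autoImplicit false

open Set Filter Topology

namespace Pool.Agent.H83.UV

open Pool.Agent.H71 (Fx orb acl)
open Pool.Agent.H72.UV

lemma aiself (f : Equiv.Perm ℕ) (x : ℕ) : f (f⁻¹ x) = x := f.apply_symm_apply x

/-- local bijections normalise groups of finitary permutations -/
lemma conj_mem_of_loc {G : Subgroup (Equiv.Perm ℕ)} (hG : Finry G) {ψ : Equiv.Perm ℕ}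
    (hψ : Loc G univ ψ) {k : Equiv.Perm ℕ} (hk : k ∈ G) : ψ * k * ψ⁻¹ ∈ G := by
  classical
  obtain ⟨g, hg, hg2⟩ := hψ (hG k hk).toFinset (subset_univ _)
  have hg3 : ∀ y, k y ≠ y → ψ y = g y := fun y hy => hg2 y ((hG k hk).mem_toFinset.2 hy)
  have : ψ * k * ψ⁻¹ = g * k * g⁻¹ := by
    ext x
    simp only [Equiv.Perm.mul_apply]
    by_cases hy : k (ψ⁻¹ x) = ψ⁻¹ x
    · rw [hy, aiself]
      by_cases hz : k (g⁻¹ x) = g⁻¹ x
      · rw [hz, aiself]
      · exfalso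
        have h1 := hg3 _ hz
        rw [aiself] at h1
        have h2 : g⁻¹ x = ψ⁻¹ x := by
          rw [Equiv.Perm.eq_inv_iff_eq]
          exact h1
        rw [h2] at hz
        exact hz hy
    · have h1 := hg3 _ hy
      rw [aiself] at h1
      have h2 : g⁻¹ x = ψ⁻¹ x := by
        rw [Equiv.Perm.inv_eq_iff_eq]
        exact h1
      rw [h2]
      exact hg3 _ (fun h => hy (k.injective h))
  rw [this]
  exact G.mul_mem (G.mul_mem hg hk) (G.inv_mem hg)

lemma mem_cj {G : ℕ → Subgroup (Equiv.Perm ℕ)} {p : ℕ → Equiv.Perm ℕ} {m : ℕ}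
    {g : Equiv.Perm ℕ} : g ∈ cj G p m ↔ p m * g * (p m)⁻¹ ∈ G m := Iff.rfl

lemma inv_mul_mem_cj {G : ℕ → Subgroup (Equiv.Perm ℕ)} {p : ℕ → Equiv.Perm ℕ} {m : ℕ}
    {g : Equiv.Perm ℕ} (hg : g ∈ G m) : (p m)⁻¹ * g * p m ∈ cj G p m := by
  rw [mem_cj]
  have : p m * ((p m)⁻¹ * g * p m) * (p m)⁻¹ = g := by group
  rwa [this]

lemma orb_cj (G : ℕ → Subgroup (Equiv.Perm ℕ)) (p : ℕ → Equiv.Perm ℕ) (m : ℕ) (F : Finset ℕ)
    (x y : ℕ) : y ∈ orb (cj G p m) F x ↔ p m y ∈ orb (G m) (F.image (p m)) (p m x) := by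
  constructor
  · rintro ⟨g, ⟨hg, hg2⟩, rfl⟩
    refine ⟨p m * g * (p m)⁻¹, ⟨hg, ?_⟩, by simp [Equiv.Perm.mul_apply]⟩
    intro a ha
    obtain ⟨b, hb, rfl⟩ := Finset.mem_image.1 ha
    simp [Equiv.Perm.mul_apply, hg2 b hb]
  · rintro ⟨g, ⟨hg, hg2⟩, hgx⟩
    refine ⟨(p m)⁻¹ * g * p m, ⟨inv_mul_mem_cj hg, ?_⟩, ?_⟩
    · intro a ha
      rw [Equiv.Perm.mul_apply, Equiv.Perm.mul_apply, hg2 _ (Finset.mem_image_of_mem _ ha)]
      simp
    · rw [Equiv.Perm.mul_apply, Equiv.Perm.mul_apply, hgx]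
      simp

lemma acl_cj (G : ℕ → Subgroup (Equiv.Perm ℕ)) (p : ℕ → Equiv.Perm ℕ) (m : ℕ) (F : Finset ℕ)
    (x : ℕ) : x ∈ acl (cj G p m) F ↔ p m x ∈ acl (G m) (F.image (p m)) := by
  have h : orb (G m) (F.image (p m)) (p m x) = p m '' orb (cj G p m) F x := by
    ext y
    constructor
    · intro hy
      refine ⟨(p m)⁻¹ y, ?_, by simp⟩
      rw [orb_cj]
      simpa using hy
    · rintro ⟨z, hz, rfl⟩
      rwa [orb_cj] at hz
  change (orb (cj G p m) F x).Finite ↔ (orb (G m) (F.image (p m)) (p m x)).Finite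
  rw [h]
  exact (Set.finite_image_iff (p m).injective.injOn).symm

theorem loc_thread {G : ℕ → Subgroup (Equiv.Perm ℕ)} {p : ℕ → Equiv.Perm ℕ}
    (hanti : ∀ m n, m ≤ n → G n ≤ G m) (hp : Thread G p) (m n : ℕ) (hmn : m ≤ n) :
    Loc (G m) univ (fun x => p m ((p n).symm x)) ∧
      Loc (G m) univ (fun x => p n ((p m).symm x)) := by
  have h1 : Loc (G m) univ (fun x => p m ((p n).symm x)) := by
    induction n, hmn using Nat.le_induction with
    | base =>
      have : (fun x => p m ((p m).symm x)) = (1 : Equiv.Perm ℕ) := by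
        funext x
        simp
      rw [this]
      exact Loc.of_mem (G m).one_mem _
    | succ n hmn ih =>
      have h2 := (hp n).mono_group (hanti m n hmn)
      have h3 := Loc.comp ih h2 (mapsTo_univ _ _)
      have h4 : (fun x => p m ((p (n + 1)).symm x)) =
          (fun x => p m ((p n).symm x)) ∘ (fun x => p n ((p (n + 1)).symm x)) := by
        funext x
        simp
      rw [h4]
      exact h3
  refine ⟨h1, ?_⟩
  have h2 : Loc (G m) univ ((p n).symm.trans (p m) : Equiv.Perm ℕ) := h1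
  exact h2.symm

theorem TOWC (_hGRP : T_GRP) (hTOW : T_TOW) : T_TOWC := by
  intro G p hG hp
  have hanti := (hTOW G hG).1
  have hloc := loc_thread hanti hp
  have hacl : ∀ m x, x ∈ acl (cj G p m) ∅ ↔ p m x ∈ acl (G m) ∅ := by
    intro m x
    rw [acl_cj, Finset.image_empty]
  refine ⟨⟨?_, ?_, ?_, ?_⟩, ?_, hacl, ?_, hloc⟩
  · intro m g hg
    rw [mem_cj] at hg ⊢
    have h1 := hanti m (m + 1) (Nat.le_succ m) hg
    have h2 : Loc (G m) univ ((p (m + 1)).symm.trans (p m) : Equiv.Perm ℕ) := hp m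
    have h3 := conj_mem_of_loc (hG.fin m) h2 h1
    have h4 : p m * g * (p m)⁻¹ = ((p (m + 1)).symm.trans (p m) : Equiv.Perm ℕ) *
        (p (m + 1) * g * (p (m + 1))⁻¹) * ((p (m + 1)).symm.trans (p m) : Equiv.Perm ℕ)⁻¹ := by
      have h5 : ((p (m + 1)).symm.trans (p m) : Equiv.Perm ℕ) = p m * (p (m + 1))⁻¹ := rfl
      rw [h5]
      group
    rw [h4]
    exact h3
  · intro m g hg
    rw [mem_cj] at hg
    have h1 := hG.fin m _ hg
    refine (h1.image ((p m)⁻¹ : Equiv.Perm ℕ)).subset ?_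
    intro x hx
    refine ⟨p m x, ?_, by simp⟩
    simpa [Equiv.Perm.mul_apply] using hx
  · intro m n
    obtain ⟨E, hE, hE2⟩ := hG.olig m n
    refine ⟨(fun e => ((p m)⁻¹ : Equiv.Perm ℕ) ∘ e) '' E, hE.image _, fun a => ?_⟩
    obtain ⟨e, he, h, hh, h2⟩ := hE2 (p m ∘ a)
    refine ⟨_, mem_image_of_mem _ he, (p m)⁻¹ * h * p m, inv_mul_mem_cj hh, fun i => ?_⟩
    have := h2 i
    simp only [Function.comp_apply] at this ⊢
    rw [Equiv.Perm.mul_apply, Equiv.Perm.mul_apply, aiself, this]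
    simp
  · intro m a ha g hg
    rw [mem_cj] at hg
    have h1 := hG.red m _ ((hacl m a).1 ha) _ hg
    simpa [Equiv.Perm.mul_apply] using h1
  · intro m x y
    rw [orb_cj, Finset.image_empty]
  · intro m x y
    change (y ∈ acl (cj G p m) {x} ∧ y ∉ acl (cj G p m) ∅) ↔
      (p m y ∈ acl (G m) {p m x} ∧ p m y ∉ acl (G m) ∅)
    rw [hacl, acl_cj, Finset.image_singleton]

end Pool.Agent.H83.UV
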